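import Pool.Agent.helper87.TR.Spec

/-!
Row tr:RP (MP_3221a1_ag): all data occur.
-/

set_option autoImplicit false

namespace Pool.Agent.helper87.TR

open Polynomial Finset Module FP97
open Pool.Agent.helper97.FP

/-- the numbers of columns -/
lemma RP_you {h : ℕ} (n : Fin h → ℕ) :
    you n = kap n + (univ.filter fun k => 3 ≤ n k).card := by
  unfold you kap
  rw [← card_union_of_disjoint]
  · congr 1
    ext k
    simp only [mem_filter, mem_univ, true_and, mem_union]
    omega
  · rw [disjoint_left]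
    intro k hk hk'
    rw [mem_filter] at hk hk'
    omega

/-- the numerical part -/
lemma RP_num (l κ σ τ d y w i : ℕ) (h1 : 2 * d ≤ l) (h2 : σ ≤ κ) (h3 : w ≤ σ) (h4 : y = κ + τ) :
    3 * (i + 1) - ((i + 1 - (κ + 2 * τ) - 2 * d - (κ - w)) +
      (i + 1 - (κ + 2 * τ) - 2 * d - (κ + (l - 2 * d) - (σ - w))) +
      (i + 1 - (κ + 2 * τ) - 2 * d - (2 * (l - 2 * d) + σ))) =
    min (i + 1) (2 * d + 2 * y - w) + min (i + 1) (l + 2 * y - (σ - w)) +
      min (i + 1) (2 * (l - d) + 2 * y - (κ - σ)) := by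
  omega

theorem RP (hGM : GM_stmt) (hCK : CK_stmt) (hWN : WN_stmt) (hRM : RM_stmt) (hRT : RT_stmt) :
    RP_stmt := by
  classical
  intro r h n S e w hadm
  have hpos := hadm.adm.pos
  obtain ⟨a, ha_def⟩ : ∃ a : Fin h → ℂ, a = fun k : Fin h => ((k : ℕ) : ℂ) + 1 := ⟨_, rfl⟩
  have ha : Function.Injective a := by
    intro x y hxy
    rw [ha_def] at hxy
    simp only [add_left_inj, Nat.cast_inj] at hxy
    exact Fin.ext hxy
  obtain ⟨β, hβ_def⟩ : ∃ β : Fin h → ℂ, β = fun k : Fin h => a k ^ e + (if k ∈ S then 0 else 1) :=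
    ⟨_, rfl⟩
  obtain ⟨L, hL⟩ : ∃ L : Finset (Fin h), L = univ.filter fun k => n k = 1 := ⟨_, rfl⟩
  obtain ⟨K, hK⟩ : ∃ K : Finset (Fin h), K = univ.filter fun k => n k = 2 := ⟨_, rfl⟩
  obtain ⟨K1, hK1⟩ : ∃ K1 : Finset (Fin h), K1 = S.filter fun k => n k = 2 := ⟨_, rfl⟩
  have hLc : L.card = ell n := by rw [hL]; rfl
  have hKc : K.card = kap n := by rw [hK]; rfl
  have hK1c : K1.card = sig n S := by rw [hK1]; rfl
  have hK1K : K1 ⊆ K := by
    intro k hk
    rw [hK1, mem_filter] at hk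
    rw [hK, mem_filter]
    exact ⟨mem_univ _, hk.2⟩
  have hsk : sig n S ≤ kap n := by rw [← hK1c, ← hKc]; exact card_le_card hK1K
  -- the points which are not hit
  have hfil : (L.filter fun k => (X ^ e : ℂ[X]).eval (a k) ≠ β k * (1 : ℂ[X]).eval (a k)) =
      L.filter fun k => k ∉ S := by
    refine filter_congr fun k _ => ?_
    rw [eval_pow, eval_X, eval_one, mul_one, hβ_def]
    by_cases hk : k ∈ S
    · simp [hk]
    · simp [hk]
  have hfc : (L.filter fun k => k ∉ S).card = (univ.filter fun k => k ∉ S ∧ n k = 1).card := by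
    congr 1
    ext k
    rw [hL]
    simp only [mem_filter, mem_univ, true_and]
    exact and_comm
  have hdee : dee n S e = e + (L.filter fun k => k ∉ S).card := by rw [hfc]; rfl
  have h2d : 2 * dee n S e ≤ L.card := by
    have h1 := hadm.adm.le
    have e1 : (univ.filter fun k => n k = 1) = L := hL.symm
    rw [e1] at h1
    have e2 : (S.filter fun k => n k = 1) = L.filter fun k => k ∈ S := by
      rw [hL]
      ext k
      simp only [mem_filter, mem_univ, true_and]
      exact and_comm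
    rw [e2] at h1
    have e3 := card_filter_add_card_filter_not (s := L) (fun k => k ∈ S)
    omega
  obtain ⟨P2, Q2, hBas⟩ := hGM (Fin h) a β L 1 (X ^ e) (dee n S e) ha.injOn isCoprime_one_left
    (by rw [hfil, natDegree_one, natDegree_X_pow, Nat.zero_max, hdee]) h2d
  rw [hfil] at hBas
  obtain ⟨P1, hP1⟩ : ∃ P1 : ℂ[X], P1 = (∏ k ∈ L.filter fun k => k ∉ S, (X - C (a k))) * 1 :=
    ⟨_, rfl⟩
  obtain ⟨Q1, hQ1⟩ : ∃ Q1 : ℂ[X], Q1 = (∏ k ∈ L.filter fun k => k ∉ S, (X - C (a k))) * X ^ e :=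
    ⟨_, rfl⟩
  rw [← hP1, ← hQ1] at hBas
  have hQP : ∀ k, Q1.eval (a k) = a k ^ e * P1.eval (a k) := by
    intro k
    rw [hQ1, hP1, mul_one, eval_mul, eval_pow, eval_X, mul_comm]
  have hP0 : ∀ k, n k ≠ 1 → P1.eval (a k) ≠ 0 := by
    intro k hk
    rw [hP1, mul_one, eval_prod, prod_ne_zero_iff]
    intro l hl
    rw [mem_filter, hL, mem_filter] at hl
    rw [eval_sub, eval_X, eval_C, sub_ne_zero]
    intro h0
    rw [ha h0] at hk
    exact hk hl.1.2
  have hW0 : ∀ k, n k ≠ 1 → P1.eval (a k) * Q2.eval (a k) - P2.eval (a k) * Q1.eval (a k) ≠ 0 := by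
    intro k hk
    have h1 := congrArg (eval (a k)) hBas.det
    rw [eval_sub, eval_mul, eval_mul, eval_prod] at h1
    rw [h1, prod_ne_zero_iff]
    intro l hl
    rw [hL, mem_filter] at hl
    rw [eval_sub, eval_X, eval_C, sub_ne_zero]
    intro h0
    rw [ha h0] at hk
    exact hk hl.2
  -- the constants
  obtain ⟨m0, hm0⟩ : ∃ m0 : ℕ, m0 = mm (L.card - 2 * dee n S e) K1.card w := ⟨_, rfl⟩
  obtain ⟨θ, hθ⟩ := Infinite.exists_notMem_finset (insert (-1 : ℂ)
    ((univ : Finset (Fin h)).image fun k => -(a k ^ m0) - P2.eval (a k) / P1.eval (a k)))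
  obtain ⟨A, hA⟩ := Infinite.exists_notMem_finset (insert (0 : ℂ)
    ((univ : Finset (Fin h)).image fun k => -(P2.eval (a k)) ^ 2 / (P1.eval (a k)) ^ 2))
  rw [mem_insert, not_or] at hθ hA
  have hθ1 : 1 + θ ≠ 0 := by
    intro h0
    exact hθ.1 (by linear_combination h0)
  have hθ2 : ∀ k, n k ≠ 1 → (a k ^ m0 + θ) * P1.eval (a k) + P2.eval (a k) ≠ 0 := by
    intro k hk h0
    apply hθ.2
    rw [mem_image]
    refine ⟨k, mem_univ _, ?_⟩
    have h1 := hP0 k hk
    field_simp
    linear_combination -h0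
  have hA2 : ∀ k, n k ≠ 1 → A * P1.eval (a k) ^ 2 + P2.eval (a k) ^ 2 ≠ 0 := by
    intro k hk h0
    apply hA.2
    rw [mem_image]
    refine ⟨k, mem_univ _, ?_⟩
    have h1 := hP0 k hk
    field_simp
    linear_combination -h0
  obtain ⟨c, hc⟩ : ∃ c : Fin h → Fin 3 → ℂ,
      c = fun k => if k ∈ S then ![a k ^ m0 + θ, 1, 0] else ![A, 0, 1] := ⟨_, rfl⟩
  have hcS : ∀ k ∈ S, c k = ![a k ^ m0 + θ, 1, 0] := by
    intro k hk
    rw [hc]
    exact if_pos hk
  have hcN : ∀ k, k ∉ S → c k = ![A, 0, 1] := by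
    intro k hk
    rw [hc]
    exact if_neg hk
  have hc0 : ∀ k, c k ≠ 0 := by
    intro k h0
    by_cases hk : k ∈ S
    · have h1 := congrFun h0 1
      rw [hcS k hk] at h1
      simp at h1
    · have h1 := congrFun h0 2
      rw [hcN k hk] at h1
      simp at h1
  have hcd : ∀ k, c k 1 ^ 2 ≠ 4 * c k 0 * c k 2 := by
    intro k
    by_cases hk : k ∈ S
    · rw [hcS k hk]
      simp
    · rw [hcN k hk]
      simp only [Matrix.cons_val_zero, Matrix.cons_val_one, Matrix.cons_val]
      intro h0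
      apply hA.1
      linear_combination (-1 / 4) * h0
  have hcl : ∀ k, n k ≠ 1 →
      c k 0 * P1.eval (a k) ^ 2 + c k 1 * (P1.eval (a k) * P2.eval (a k)) +
        c k 2 * P2.eval (a k) ^ 2 ≠ 0 := by
    intro k hk
    by_cases hkS : k ∈ S
    · rw [hcS k hkS]
      simp only [Matrix.cons_val_zero, Matrix.cons_val_one, Matrix.cons_val]
      intro h0
      have h1 : P1.eval (a k) * ((a k ^ m0 + θ) * P1.eval (a k) + P2.eval (a k)) = 0 := by
        linear_combination h0
      rcases mul_eq_zero.1 h1 with h2 | h2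
      · exact hP0 k hk h2
      · exact hθ2 k hk h2
    · rw [hcN k hkS]
      simp only [Matrix.cons_val_zero, Matrix.cons_val_one, Matrix.cons_val]
      intro h0
      apply hA2 k hk
      linear_combination h0
  -- the points
  have hbb : ∀ k, ∃ b b' : ℂ, n k = 2 → b ≠ b' ∧ ev2 P1 Q1 P2 Q2 (c k) (a k) b = 0 ∧
      ev2 P1 Q1 P2 Q2 (c k) (a k) b' = 0 := by
    intro k
    by_cases hk : n k = 2
    · have hk1 : n k ≠ 1 := by omega
      obtain ⟨b, b', h1⟩ := hRT P1 Q1 P2 Q2 (a k) (c k) (hW0 k hk1) (hcd k) (hcl k hk1)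
      exact ⟨b, b', fun _ => h1⟩
    · exact ⟨0, 0, fun h1 => absurd h1 hk⟩
  choose b b' hb using hbb
  obtain ⟨g, hg_def⟩ : ∃ g : Fin h → ℕ → ℂ,
      g = fun k t => a k ^ e + ((if k ∈ S then t else t + 1 : ℕ) : ℂ) := ⟨_, rfl⟩
  have hg : ∀ k, Function.Injective (g k) := by
    intro k x y hxy
    rw [hg_def] at hxy
    simp only [add_right_inj, Nat.cast_inj] at hxy
    by_cases hk : k ∈ S
    · simpa [hk] using hxy
    · simpa [hk] using hxy
  obtain ⟨B, hB_def⟩ : ∃ B : Fin h → Finset ℂ,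
      B = fun k => if n k = 2 then {b k, b' k} else (Finset.range (n k)).image (g k) := ⟨_, rfl⟩
  have hB2 : ∀ k, n k = 2 → B k = {b k, b' k} := by
    intro k hk
    rw [hB_def]
    exact if_pos hk
  have hBn : ∀ k, n k ≠ 2 → B k = (Finset.range (n k)).image (g k) := by
    intro k hk
    rw [hB_def]
    exact if_neg hk
  have hBc : ∀ k, (B k).card = n k := by
    intro k
    by_cases hk : n k = 2
    · rw [hB2 k hk, card_pair (hb k hk).1, hk]
    · rw [hBn k hk, Finset.card_image_of_injective _ (hg k), Finset.card_range]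
  have hSing : Sing B = L := by
    ext k
    rw [mem_Sing, hBc, hL, mem_filter]
    simp
  have hKK : KK B = K := by
    unfold KK
    rw [hK]
    refine filter_congr fun k _ => ?_
    rw [hBc]
  have hTT : TT B = univ.filter fun k => 3 ≤ n k := by
    unfold TT
    refine filter_congr fun k _ => ?_
    rw [hBc]
  have hβ : ∀ k ∈ Sing B, B k = {β k} := by
    intro k hk
    rw [hSing, hL, mem_filter] at hk
    rw [hBn k (by omega), hk.2, Finset.range_one, image_singleton, hg_def, hβ_def]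
    by_cases hkS : k ∈ S
    · simp [hkS]
    · simp [hkS]
  have hit : ∀ k, Hit a B 1 (X ^ e) k ↔ k ∈ S := by
    intro k
    by_cases hk : n k = 2
    · have hk1 : n k ≠ 1 := by omega
      obtain ⟨hne, hz, hz'⟩ := hb k hk
      have h1 := ((hCK P1 Q1 P2 Q2 (a k) (b k) (b' k) hne (hW0 k hk1)).1 (c k) (hc0 k) hz hz').2.2
      rw [hQP k, mul_left_inj' (hP0 k hk1), mul_left_inj' (hP0 k hk1)] at h1
      have h2 : Hit a B 1 (X ^ e) k ↔ (a k ^ e = b k ∨ a k ^ e = b' k) := by
        simp only [Hit, eval_pow, eval_X, eval_one, mul_one]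
        rw [hB2 k hk]
        simp only [mem_insert, mem_singleton]
        constructor
        · rintro ⟨x, hx | hx, hx2⟩
          · left; rw [hx2, hx]
          · right; rw [hx2, hx]
        · rintro (hx | hx)
          · exact ⟨_, Or.inl rfl, hx⟩
          · exact ⟨_, Or.inr rfl, hx⟩
      rw [h2, ← h1]
      by_cases hkS : k ∈ S
      · rw [hcS k hkS]
        simp [hkS]
      · rw [hcN k hkS]
        simp [hkS]
    · simp only [Hit, eval_pow, eval_X, eval_one, mul_one]
      rw [hBn k hk]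
      simp only [Finset.mem_image, Finset.mem_range]
      constructor
      · rintro ⟨x, ⟨t, _, rfl⟩, hx⟩
        by_contra hkS
        rw [hg_def] at hx
        simp only [if_neg hkS] at hx
        have h1 : (((t + 1 : ℕ)) : ℂ) = 0 := by linear_combination -hx
        rw [Nat.cast_eq_zero] at h1
        omega
      · intro hkS
        refine ⟨a k ^ e, ⟨0, hpos k, ?_⟩, rfl⟩
        rw [hg_def]
        simp [hkS]
  refine ⟨a, B, ha, hBc, ?_, ?_⟩
  · ext k
    rw [mem_HS, hit]
  · intro i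
    rw [hWN h a β B (dee n S e) P1 Q1 P2 Q2 c ha (fun k => by rw [hBc]; exact hpos k) hβ
      (by rw [hSing]; exact hBas) (by
        intro k hk
        rw [hKK, hK, mem_filter] at hk
        refine ⟨hc0 k, fun x hx => ?_⟩
        rw [hB2 k hk.2, mem_insert, mem_singleton] at hx
        rcases hx with rfl | rfl
        · exact (hb k hk.2).2.1
        · exact (hb k hk.2).2.2) i, hKK, hSing, hTT]
    rw [hRM (Fin h) a c K K1 (L.card - 2 * dee n S e) w θ A ha.injOn hK1K
      (by rw [hK1c]; exact hadm.le)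
      (by
        rw [hK1c, hLc]
        rcases hadm.alt with h1 | h1
        · left; exact h1
        · right; omega) hθ1
      (by
        intro k hk
        rw [← hm0]
        rw [hK1, mem_filter] at hk
        exact hcS k hk.1)
      (by
        intro k hk hk'
        rw [hK, mem_filter] at hk
        apply hcN
        intro hkS
        apply hk'
        rw [hK1, mem_filter]
        exact ⟨hkS, hk.2⟩)]
    unfold third
    rw [hKc, hK1c, hLc]
    rw [hLc] at h2d
    exact RP_num (ell n) (kap n) (sig n S) _ (dee n S e) (you n) w i h2d hsk hadm.le (RP_you n)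

end Pool.Agent.helper87.TR
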